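import Pool.Agent.Lib.MP_c0051b_pr.Asymp

/-! `ℓ^p` cutoff of the random transposition shuffle at time `(1/2) n log n`, for all real
`p > 2`. The definitions `stepProb`, `walk`, `lpDist`, `HasLpCutoff` are in
`Pool.Agent.Lib.MP_c0051b_pr.Defs`. -/

namespace Pool.Agent.Results.MP_c0051b_pr.LpCutoff

open Pool.Agent.RandTransp

/-- For every real `p > 2` the random transposition walk on the permutations of `Fin n` has an
`ℓ^p` cutoff at time `(1/2) n log n`. -/
theorem result :
    ∀ p : ℝ, 2 < p → HasLpCutoff p (fun n : ℕ => (1 / 2 : ℝ) * n * Real.log n) :=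
  fun p hp => cutoff p hp

end Pool.Agent.Results.MP_c0051b_pr.LpCutoff
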